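import Pool.Agent.U434.SS.Defs

/-!
# Hyperkähler varieties and their Kuga-Satake varieties: definitions
-/

set_option autoImplicit false

namespace Pool.Agent.U434.KS

open Module
open Pool.Agent.N184.HK Pool.Agent.U434.PA Pool.Agent.U434.HM Pool.Agent.U434.SS

section

variable {K H : Type} [Field K] [AddCommGroup H] [Module K H]

/-- The subspace `N` is stable under the operators in `S`. -/
def Stable (S : Set (Module.End K H)) (N : Submodule K H) : Prop :=
  ∀ g ∈ S, ∀ x ∈ N, g x ∈ N

/-- The linear map `f` from the subspace `N` of `H` to the subspace `M` commutes with the operators `g`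
in `S`: `f (g x) = g (f x)` for `x`, `g x` in `N`. -/
def Equivar (S : Set (Module.End K H)) {N M : Submodule K H} (f : N →ₗ[K] M) : Prop :=
  ∀ g ∈ S, ∀ x y : N, (y : H) = g x → (f y : H) = g (f x)

/-- There is an injective linear map from `N` to `M` which commutes with the operators in `S`. -/
def Embeds (S : Set (Module.End K H)) (N M : Submodule K H) : Prop :=
  ∃ f : N →ₗ[K] M, Function.Injective f ∧ Equivar S f

/-- `N` is a direct summand of `M` as a representation: there are linear maps `f` from `N` to `M` and
`g` from `M` to `N` with `g f = 1` which commute with the operators in `S`. -/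
def Summand (S : Set (Module.End K H)) (N M : Submodule K H) : Prop :=
  ∃ (f : N →ₗ[K] M) (g : M →ₗ[K] N), g ∘ₗ f = LinearMap.id ∧ Equivar S f ∧ Equivar S g

/-- The linear maps from `N` to `M` which commute with `S` are those which commute with `S'`. -/
def SameHom (S S' : Set (Module.End K H)) (N M : Submodule K H) : Prop :=
  ∀ f : N →ₗ[K] M, Equivar S f ↔ Equivar S' f

/-- The operators `ρ A` for the elements `A` of `L`. -/
def images {V : Type} [AddCommGroup V] [Module K V] (ρ : Act K V H)
    (L : Set (Module.End K V)) : Set (Module.End K H) :=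
  {g | ∃ A ∈ L, g = ρ A}

end

variable {Ω : Type} [Field Ω] [CharZero Ω] [IsAlgClosed Ω] [TopologicalSpace Ω]

/-- The operators of the elements of the subset `U` of `G` on `H^j`. -/
def galOps (Z : HKFamily Ω) (j : ℕ) (U : Set Z.G) : Set (Module.End Ω (Z.H.H j)) :=
  {g | ∃ σ ∈ U, g = en ((Z.F σ).φ j)}

/-- The operators of `so(H²)` on `H^j`. -/
def soOps (Z : HKFamily Ω) (j : ℕ) : Set (Module.End Ω (Z.H.H j)) :=
  images (Z.H.ρ j) {A | Skew Z.H.q A}

/-- The operators on `H^j` given by the elements of the Galois Lie algebra of `H²`, that is, the Lie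
algebra `galLie` of endomorphisms of `H²` spanned by the Lie algebras of the tori of the elements of
the Galois group. -/
def lieOps (Z : HKFamily Ω) (j : ℕ) : Set (Module.End Ω (Z.H.H j)) :=
  images (Z.H.ρ j) (galLie Z Set.univ)

/-- Complementary subspaces `X` and `T` of `H^j`, stable under `G` and `so(H²)`. -/
structure Pair (Z : HKFamily Ω) (j : ℕ) where
  X : Submodule Ω (Z.H.H j)
  T : Submodule Ω (Z.H.H j)
  compl : IsCompl X T
  galX : Stable (galOps Z j Set.univ) X
  galT : Stable (galOps Z j Set.univ) T
  soX : Stable (soOps Z j) X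
  soT : Stable (soOps Z j) T

/-- The `ℓ`-adic cohomology of a projective hyperkähler variety `X` over a finitely generated field `k`
of characteristic zero, of any deformation type, and of a power `T` of its Kuga-Satake variety
`KS(X)` (we enlarge `k` so that it is defined over `k`). The family `Z` consists of the spaces
`Z.H.H (i + 2 m) = X_i ⊕ T_i`, where `X_i = H^i(X)(-m)` and `T_i = H^(i + 2 m)(T)`, for `i ≤ b = 2 dim X`
(these are the pairs `P i`), and of `Z.H.H 2 = H²(X)`, and it is zero in the other degrees. So `G = Z.G` is
the fundamental group of a scheme `S` with function field `k` over which `X` and `T` have smooth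
projective models, and it acts on all these spaces. The Lie algebra `so(H²(X))` acts on `H^i(X)`
(Verbitsky, Looijenga-Lunts), and on `H¹(T)`, a power of the Clifford algebra `C⁺(H²(X))`, by left
multiplication, and so on the exterior powers `H^j(T)` of `H¹(T)`. These actions are normalized by Galois
(Deligne, André), and by the crystalline Frobenius at the places of `S`, if `S` is small enough (as
the Kuga-Satake correspondence is motivated, by André). `Arithmetic` is as in `U434.SS`:
`H¹_g(k, ℚ_ℓ) = 0`.

The field `ksv` is the theorem of Kurnosov, Soldatenkov and Verbitsky: for suitable `m` and `T` there are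
embeddings of `H^i(X)(-m)` into `H^(i + 2 m)(T)` which are compatible with the action of `so(H²)`
(and with the Hodge structures). -/
structure KugaSatake (Ω : Type) [Field Ω] [CharZero Ω] [IsAlgClosed Ω] [TopologicalSpace Ω] where
  Z : HKFamily Ω
  arith : Arithmetic Z
  b : ℕ
  m : ℕ
  two_le : 2 ≤ m
  le : b + 2 * m ≤ Z.d
  P : ∀ i, Pair Z (i + 2 * m)
  ksv : ∀ i ≤ b, Embeds (soOps Z (i + 2 * m)) (P i).X (P i).T

/-- The operators on `H^i(X)(-m) ⊕ H^(i + 2 m)(T)` of the elements of the subgroup `U` of the Galois
group. -/
abbrev KugaSatake.gal (Y : KugaSatake Ω) (i : ℕ) (U : Subgroup Y.Z.G) :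
    Set (Module.End Ω (Y.Z.H.H (i + 2 * Y.m))) :=
  galOps Y.Z (i + 2 * Y.m) U

/-- The operators on `H^i(X)(-m) ⊕ H^(i + 2 m)(T)` of the Galois Lie algebra of `H²(X)`. -/
abbrev KugaSatake.lie (Y : KugaSatake Ω) (i : ℕ) :
    Set (Module.End Ω (Y.Z.H.H (i + 2 * Y.m))) :=
  lieOps Y.Z (i + 2 * Y.m)

end Pool.Agent.U434.KS
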