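import Pool.Agent.U434.KS.Defs
import Pool.Agent.U434.SS.CM

/-!
# Hyperkähler varieties and their Kuga-Satake varieties: proofs
-/

set_option autoImplicit false

namespace Pool.Agent.U434.KS

open Module
open Pool.Agent.N184.HK Pool.Agent.U434.PA Pool.Agent.U434.HM Pool.Agent.U434.SS

section

variable {K H : Type} [Field K] [AddCommGroup H] [Module K H]

/-- The extension by zero of `f`. -/
noncomputable def ext0 {N N' M : Submodule K H} (h : IsCompl N N') (f : N →ₗ[K] M) :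
    Module.End K H :=
  M.subtype ∘ₗ f ∘ₗ (N.projectionOnto N' h)

lemma ext0_left {N N' M : Submodule K H} (h : IsCompl N N') (f : N →ₗ[K] M) (x : N) :
    ext0 h f x = f x := by
  change ((f (N.projectionOnto N' h x) : M) : H) = f x
  rw [Submodule.projectionOnto_apply_left]

lemma ext0_right {N N' M : Submodule K H} (h : IsCompl N N') (f : N →ₗ[K] M) {x : H}
    (hx : x ∈ N') : ext0 h f x = 0 := by
  change ((f (N.projectionOnto N' h x) : M) : H) = 0
  rw [Submodule.projectionOnto_apply_of_mem_right h hx, map_zero]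
  rfl

lemma commute_ext0 {N N' M : Submodule K H} (h : IsCompl N N') (f : N →ₗ[K] M)
    {g : Module.End K H} (hN : ∀ x ∈ N, g x ∈ N) (hN' : ∀ x ∈ N', g x ∈ N') :
    Commute g (ext0 h f) ↔ ∀ x y : N, (y : H) = g x → (f y : H) = g (f x) := by
  constructor
  · intro hc x y hxy
    have h1 := congrArg (fun F => F (x : H)) hc.eq
    change g (ext0 h f x) = ext0 h f (g x) at h1
    rw [ext0_left, ← hxy, ext0_left] at h1
    exact h1.symm
  · intro hi
    refine LinearMap.ext fun x => ?_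
    change g (ext0 h f x) = ext0 h f (g x)
    obtain ⟨a, b, rfl⟩ : ∃ a : N, ∃ b : N', (a : H) + b = x := by
      have := Submodule.mem_sup.1 (h.sup_eq_top ▸ Submodule.mem_top : x ∈ N ⊔ N')
      obtain ⟨y, hy, z, hz, hyz⟩ := this
      exact ⟨⟨y, hy⟩, ⟨z, hz⟩, hyz⟩
    rw [map_add, map_add, map_add, map_add, ext0_left, ext0_right h f b.2,
      ext0_right h f (hN' b b.2), map_zero, add_zero, add_zero]
    have h2 : g (a : H) = ((⟨g a, hN a a.2⟩ : N) : H) := rfl
    rw [h2, ext0_left]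
    exact (hi a ⟨g a, hN a a.2⟩ rfl).symm

lemma equivar_iff {S : Set (Module.End K H)} {N N' M : Submodule K H} (h : IsCompl N N')
    (hN : Stable S N) (hN' : Stable S N') (f : N →ₗ[K] M) :
    Equivar S f ↔ ∀ g ∈ S, Commute g (ext0 h f) :=
  forall₂_congr fun g hg => (commute_ext0 h f (hN g hg) (hN' g hg)).symm

end

section

variable {Ω : Type} [Field Ω] [CharZero Ω] [IsAlgClosed Ω] [TopologicalSpace Ω]
  {Z : HKFamily Ω} {j : ℕ}

lemma lie_sub : lieOps Z j ⊆ soOps Z j := by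
  rintro _ ⟨A, hA, rfl⟩
  exact ⟨A, gal_skew hA, rfl⟩

lemma stable_mono {K H : Type} [Field K] [AddCommGroup H] [Module K H]
    {S S' : Set (Module.End K H)} {N : Submodule K H} (h : S ⊆ S') (hN : Stable S' N) :
    Stable S N :=
  fun g hg => hN g (h hg)

lemma equivar_mono {K H : Type} [Field K] [AddCommGroup H] [Module K H]
    {S S' : Set (Module.End K H)} {N M : Submodule K H} (h : S ⊆ S') {f : N →ₗ[K] M}
    (hf : Equivar S' f) : Equivar S f :=
  fun g hg => hf g (h hg)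

lemma gal_mono {U V : Set Z.G} (h : U ⊆ V) : galOps Z j U ⊆ galOps Z j V := by
  rintro _ ⟨σ, hσ, rfl⟩
  exact ⟨σ, h hσ, rfl⟩

/-- The maps which commute with the Galois Lie algebra are given by elements of the commutant. -/
theorem ext0_mem_com {N N' M : Submodule Ω (Z.H.H j)} (h : IsCompl N N')
    (hN : Stable (soOps Z j) N) (hN' : Stable (soOps Z j) N') (f : N →ₗ[Ω] M) :
    ext0 h f ∈ com Z j ↔ Equivar (lieOps Z j) f := by
  rw [mem_com, equivar_iff h (stable_mono lie_sub hN) (stable_mono lie_sub hN')]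
  constructor
  · rintro h1 _ ⟨A, hA, rfl⟩
    exact h1 A hA
  · intro h1 A hA
    exact h1 _ ⟨A, hA, rfl⟩

/-- An injective map which commutes with `so(H²)` has a retraction which commutes with `so(H²)`. -/
theorem retraction {N M : Submodule Ω (Z.H.H j)} (hN : Stable (soOps Z j) N)
    {f : N →ₗ[Ω] M} (hf : Function.Injective f) (he : Equivar (soOps Z j) f) :
    ∃ g : M →ₗ[Ω] N, g ∘ₗ f = LinearMap.id ∧ Equivar (soOps Z j) g := by
  set F : N →ₗ[Ω] Z.H.H j := M.subtype ∘ₗ f with hF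
  have hFinj : Function.Injective F := (Submodule.injective_subtype M).comp hf
  have hst : ∀ A (hA : Skew Z.H.q A) (x : N),
      F ⟨Z.H.ρ j A x, hN _ ⟨A, hA, rfl⟩ x x.2⟩ = Z.H.ρ j A (F x) :=
    fun A hA x => he _ ⟨A, hA, rfl⟩ x ⟨Z.H.ρ j A x, hN _ ⟨A, hA, rfl⟩ x x.2⟩ rfl
  obtain ⟨C, hC, hcompl⟩ := so_compl Z.H.symm Z.H.nondeg Z.H.dim3 (Z.H.bracket j)
    (LinearMap.range F) (by
      rintro A hA _ ⟨x, rfl⟩
      exact ⟨_, hst A hA x⟩)
  set e := LinearEquiv.ofInjective F hFinj with he'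
  set π := (LinearMap.range F).projectionOnto C hcompl with hπ
  have heF : ∀ x, (e x : Z.H.H j) = F x := fun x => LinearEquiv.ofInjective_apply F x
  have hFe : ∀ z, F (e.symm z) = z := fun z => by rw [← heF, e.apply_symm_apply]
  have hπA : ∀ A, Skew Z.H.q A → ∀ z, ((π (Z.H.ρ j A z) : _) : Z.H.H j) = Z.H.ρ j A (π z) := by
    intro A hA z
    have h1 := projection_comm hcompl (A := Z.H.ρ j A) (by
      rintro _ ⟨x, rfl⟩
      exact ⟨_, hst A hA x⟩) (hC A hA)
    have h2 := congrArg (fun g => g z) h1.eq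
    exact h2.symm
  refine ⟨e.symm.toLinearMap ∘ₗ π ∘ₗ M.subtype, ?_, ?_⟩
  · refine LinearMap.ext fun x => ?_
    change e.symm (π (F x)) = x
    rw [← heF, Submodule.projectionOnto_apply_left, e.symm_apply_apply]
  · rintro _ ⟨A, hA, rfl⟩ x y hxy
    change ((e.symm (π y) : N) : Z.H.H j) = Z.H.ρ j A ((e.symm (π x) : N) : Z.H.H j)
    set a : N := e.symm (π x) with ha
    have h1 : F ⟨Z.H.ρ j A a, hN _ ⟨A, hA, rfl⟩ a a.2⟩ = F (e.symm (π y)) := by
      rw [hst A hA, hFe, hFe, hxy, hπA A hA]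
    exact (congrArg Subtype.val (hFinj h1)).symm

end

section

variable {Ω : Type} [Field Ω] [CharZero Ω] [IsAlgClosed Ω] [TopologicalSpace Ω]
  [IsTopologicalRing Ω] [T2Space Ω] {Z : HKFamily Ω}

/-- An open subgroup commutes with the commutants in all degrees. -/
theorem com_all (h : Arithmetic Z) : ∃ U : Subgroup Z.G, IsOpen (U : Set Z.G) ∧ U.FiniteIndex ∧
    ∀ j ≤ Z.d, ∀ σ ∈ U, ∀ B ∈ com Z j, Commute (en ((Z.F σ).φ j)) B := by
  have key : ∀ n ≤ Z.d, ∃ U : Subgroup Z.G, IsOpen (U : Set Z.G) ∧ U.FiniteIndex ∧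
      ∀ j ≤ n, ∀ σ ∈ U, ∀ B ∈ com Z j, Commute (en ((Z.F σ).φ j)) B := by
    intro n
    induction n with
    | zero =>
      intro hn
      obtain ⟨U, h1, h2, h3⟩ := com_sub' h hn
      refine ⟨U, h1, h2, fun j hj => ?_⟩
      obtain rfl : j = 0 := by omega
      exact h3
    | succ n ih =>
      intro hn
      obtain ⟨U, h1, h2, h3⟩ := com_sub' h hn
      obtain ⟨V, h4, h5, h6⟩ := ih (by omega)
      refine ⟨U ⊓ V, h1.inter h4, inferInstance, fun j hj σ hσ => ?_⟩
      rcases Nat.lt_or_ge n j with hj' | hj'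
      · obtain rfl : j = n + 1 := by omega
        exact h3 σ hσ.1
      · exact h6 j hj' σ hσ.2
  exact key Z.d le_rfl

/-- The operators which commute with an open subgroup are in the commutant. -/
theorem mem_com_of_open {U : Subgroup Z.G} (hfin : U.FiniteIndex) {j : ℕ} (hj : j ≤ Z.d)
    {B : Module.End Ω (Z.H.H j)} (hB : ∀ σ ∈ U, Commute (en ((Z.F σ).φ j)) B) : B ∈ com Z j := by
  rw [mem_com]
  intro A hA
  have h1 : galLie Z Set.univ ≤ LinearMap.ker ((LinearMap.mulRight Ω B -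
      LinearMap.mulLeft Ω B) ∘ₗ Z.H.ρ j) := by
    rw [galLie, Submodule.span_le]
    rintro _ ⟨τ, -, W, rfl⟩
    obtain ⟨n, hn, -, hτn⟩ := Subgroup.exists_pow_mem_of_index_ne_zero hfin.index_ne_zero τ
    have h2 : Commute (fop (en ((Z.F (τ ^ n)).φ j)) W.w) B := (fop_comm (hB _ hτn).symm _).symm
    rw [fop_formula (inClosure _) W hj] at h2
    have h3 : Commute (Z.H.ρ j (SS (Z.F (τ ^ n)) W)) B := by
      have h4 := h2.sub_left (((Commute.one_left B).smul_left
        ((j : Ω) * W.w (Z.F (τ ^ n)).μ / 4)))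
      rwa [add_sub_cancel_left] at h4
    rw [SS_pow, ← Nat.cast_smul_eq_nsmul Ω n, map_smul] at h3
    have hn0 : (n : Ω) ≠ 0 := by exact_mod_cast hn.ne'
    have h5 := h3.smul_left (n : Ω)⁻¹
    rw [smul_smul, inv_mul_cancel₀ hn0, one_smul] at h5
    change Z.H.ρ j (SS (Z.F τ) W) * B - B * Z.H.ρ j (SS (Z.F τ) W) = 0
    rw [h5.eq, sub_self]
  have h2 := h1 hA
  change Z.H.ρ j A * B - B * Z.H.ρ j A = 0 at h2
  exact sub_eq_zero.1 h2

variable (Y : KugaSatake Ω)

/-- **The `ℓ`-adic Kuga-Satake theorem.** Over a finite extension of `k` the Galois representations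
`H^i(X)(-m)` are direct summands of the `H^(i + 2 m)(T)`, for all `i ≤ 2 dim X`. -/
theorem summand : ∃ U : Subgroup Y.Z.G, IsOpen (U : Set Y.Z.G) ∧ U.FiniteIndex ∧
    ∀ i ≤ Y.b, Summand (Y.gal i U) (Y.P i).X (Y.P i).T ∧
      ∀ V ≤ U, V.FiniteIndex → SameHom (Y.gal i V) (Y.lie i) (Y.P i).X (Y.P i).T := by
  obtain ⟨U, h1, h2, h3⟩ := com_all Y.arith
  refine ⟨U, h1, h2, fun i hi => ?_⟩
  have hd : i + 2 * Y.m ≤ Y.Z.d := le_trans (by omega) Y.le
  have hk := Y.ksv i hi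
  generalize Y.P i = P at hk
  obtain ⟨X, T, hc, gX, gT, hX, hT⟩ := P
  have gX' : ∀ V : Subgroup Y.Z.G, Stable (Y.gal i V) X := fun V =>
    stable_mono (gal_mono (Set.subset_univ _)) gX
  have gT' : ∀ V : Subgroup Y.Z.G, Stable (Y.gal i V) T := fun V =>
    stable_mono (gal_mono (Set.subset_univ _)) gT
  have key : ∀ f : X →ₗ[Ω] T, Equivar (Y.lie i) f → Equivar (Y.gal i U) f := by
    intro f hf
    refine (equivar_iff hc (gX' U) (gT' U) f).2 ?_
    rintro _ ⟨σ, hσ, rfl⟩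
    exact h3 _ hd σ hσ _ ((ext0_mem_com hc hX hT f).2 hf)
  refine ⟨?_, fun V hVU hV f => ⟨fun hf => ?_, fun hf => ?_⟩⟩
  · obtain ⟨f, hf, hef⟩ := hk
    obtain ⟨g, hg, heg⟩ := retraction hX hf hef
    refine ⟨f, g, hg, key f (equivar_mono lie_sub hef),
      (equivar_iff hc.symm (gT' U) (gX' U) g).2 ?_⟩
    rintro _ ⟨σ, hσ, rfl⟩
    exact h3 _ hd σ hσ _ ((ext0_mem_com hc.symm hT hX g).2 (equivar_mono lie_sub heg))
  · refine (ext0_mem_com hc hX hT f).1 (mem_com_of_open hV hd fun σ hσ => ?_)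
    exact (equivar_iff hc (gX' V) (gT' V) f).1 hf _ ⟨σ, hσ, rfl⟩
  · exact equivar_mono (gal_mono hVU) (key f hf)

end

end Pool.Agent.U434.KS
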